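import Pool.Agent.H32.LP.Gen

/-!
# Almost prime values of `6 m + 1`, `12 m + 1`, `18 m + 1`, all with a large prime factor

Let `Rough r X` be the set of the `m` in `(X, 2 X]` for which none of the numbers `6 m + 1`, `12 m + 1`, `18 m + 1` has a
prime factor up to `X ^ (1 / r)`. It has at least `c X / (log X) ^ 3` elements, and for these the three numbers have at
most `r` prime factors. We show that for a positive proportion of these `m` ALL THREE numbers have a prime factor larger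
than `X ^ θ`, for `θ = 0.434`, or, with different exponents, larger than `X ^ (1/2 - ε)`, `X ^ (1/3)`, `X ^ (1/3)`.

Proof: the moments of order `j` of the logarithms of the prime factors up to `X ^ θ`, `j θ < 1`, over the sifted set, from
the fundamental lemma of the sieve in progressions modulo products of `j` primes.
-/

set_option autoImplicit false

namespace Pool.Agent.Results.MP_fb5b0b_nt.LargePrimeFactors

open Filter Finset Polynomial
open Pool.Agent.H32.LP Pool.Agent.W123.RU.Poly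

/-- The number `6 (i + 1) m + 1`, `i = 0, 1, 2`. -/
def form (i : Fin 3) (m : ℕ) : ℕ := 6 * (i.val + 1) * m + 1

/-- The `m` in `(X, 2 X]` such that no prime `p ≤ X ^ (1 / r)` divides `6 m + 1`, `12 m + 1` or `18 m + 1`. -/
def Rough (r X : ℕ) : Set ℕ :=
  {m | X < m ∧ m ≤ 2 * X ∧ ∀ i, ∀ p : ℕ, p.Prime → (p : ℝ) ≤ (X : ℝ) ^ (1 / (r : ℝ)) → ¬ p ∣ form i m}

/-- `n` has a prime factor larger than `y`. -/
def HasLarge (y : ℝ) (n : ℕ) : Prop := ∃ p : ℕ, p.Prime ∧ p ∣ n ∧ y < (p : ℝ)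

/-- The product of the `θ / (1 - t θ)` for `0 ≤ t < j`. -/
noncomputable def bound (θ : ℝ) (j : ℕ) : ℝ := ∏ t ∈ range j, θ / (1 - t * θ)

/-- the polynomials -/
noncomputable def pol (i : Fin 3) : ℤ[X] := C (6 * ((i.val : ℤ) + 1)) * X + C 1

lemma a_pos (i : Fin 3) : (0 : ℤ) < 6 * ((i.val : ℤ) + 1) := by positivity

lemma pol_eval (i : Fin 3) (m : ℕ) : (pol i).eval (m : ℤ) = (form i m : ℤ) := by
  unfold pol form
  simp only [eval_add, eval_mul, eval_C, eval_X]
  push_cast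
  ring

lemma pol_deg (i : Fin 3) : (pol i).natDegree = 1 := natDegree_linear (a_pos i).ne'

lemma sys : Sys pol where
  irr i := irreducible_C_mul_X_add_C (a_pos i).ne' (IsCoprime.isRelPrime ⟨0, 1, by ring⟩)
  deg i := by rw [pol_deg]; norm_num
  lead i := by
    unfold pol
    rw [leadingCoeff_linear (a_pos i).ne']
    exact a_pos i
  inj := by
    intro i i' h
    have h1 := congrArg leadingCoeff h
    simp only [pol] at h1
    rw [leadingCoeff_linear (a_pos i).ne', leadingCoeff_linear (a_pos i').ne'] at h1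
    exact Fin.ext (by omega)
  adm p hp := by
    refine ⟨0, fun i h => ?_⟩
    rw [pol_eval i 0] at h
    have h2 : form i 0 = 1 := by simp [form]
    rw [h2] at h
    have h3 : p ∣ 1 := by exact_mod_cast h
    exact hp.one_lt.ne' (Nat.dvd_one.1 h3)

lemma rough_eq (r X : ℕ) : Rough r X = RoughG pol r X := by
  ext m
  unfold Rough RoughG
  simp only [pol_eval, Int.natCast_dvd_natCast]

lemma bound_eq (θ : ℝ) (j : ℕ) : beta 1 θ j = bound θ j := by
  unfold beta bound
  simp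

theorem general (θ : Fin 3 → ℝ) (j : Fin 3 → ℕ) (hθ : ∀ i, 0 < θ i ∧ 1 ≤ j i ∧ j i * θ i < 1) (κ : ℝ)
    (hκ : κ < 1 - ∑ i, bound (θ i) (j i)) :
    ∃ r₀ : ℕ, 1 ≤ r₀ ∧ ∀ r : ℕ, r₀ ≤ r → ∃ c : ℝ, 0 < c ∧ ∀ᶠ X : ℕ in atTop,
      c * X / Real.log X ^ 3 ≤ ((Rough r X).ncard : ℝ) ∧
      (∀ m ∈ Rough r X, ∀ i, (form i m).primeFactorsList.length ≤ r) ∧
      κ * ((Rough r X).ncard : ℝ) ≤
        ({m | m ∈ Rough r X ∧ ∀ i, HasLarge ((X : ℝ) ^ θ i) (form i m)}.ncard : ℝ) := by
  obtain ⟨r₀, hr₀, h⟩ := gen pol sys θ j hθ κ (by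
    refine lt_of_lt_of_le hκ (le_of_eq ?_)
    congr 1
    refine Finset.sum_congr rfl fun i _ => ?_
    rw [pol_deg, bound_eq])
  refine ⟨r₀, hr₀, fun r hr => ?_⟩
  obtain ⟨b, hb, hX⟩ := h r hr
  refine ⟨b, hb, ?_⟩
  filter_upwards [hX] with X hX
  obtain ⟨h1, h2, h3⟩ := hX
  rw [Fintype.card_fin] at h1
  refine ⟨?_, ?_, ?_⟩
  · rw [rough_eq]
    exact h1
  · intro m hm i
    rw [rough_eq] at hm
    have h4 := h2 m hm i
    rwa [pol_eval i m, pol_deg, one_mul, Int.natAbs_natCast] at h4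
  · have e : {m | m ∈ Rough r X ∧ ∀ i, HasLarge ((X : ℝ) ^ θ i) (form i m)} =
        {m | m ∈ RoughG pol r X ∧ ∀ i, ∃ p : ℕ, p.Prime ∧
          (p : ℤ) ∣ (pol i).eval (m : ℤ) ∧ (X : ℝ) ^ θ i < (p : ℝ)} := by
      rw [rough_eq]
      unfold HasLarge
      simp only [pol_eval, Int.natCast_dvd_natCast]
    rw [e, rough_eq]
    exact h3

/-- **Almost prime values of `6 m + 1`, `12 m + 1`, `18 m + 1`, all with a large prime factor.**

(1) Let `0 < θ i`, `1 ≤ j i`, `j i * θ i < 1` for `i = 0, 1, 2` and let `κ` be smaller than `1` minus the sum of the three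
numbers `bound (θ i) (j i)`. For all large `r` and `X` there are at least `c X / (log X) ^ 3` elements in `Rough r X`, the
three numbers have at most `r` prime factors each for them, and for a proportion of at least `κ` of them the number
`6 (i + 1) m + 1` has a prime factor larger than `X ^ θ i`, simultaneously for `i = 0, 1, 2`.

(2) The sum of the three bounds is smaller than `1` for `θ = 0.434`, `j = 2`. -/
theorem result :
    (∀ (θ : Fin 3 → ℝ) (j : Fin 3 → ℕ), (∀ i, 0 < θ i ∧ 1 ≤ j i ∧ j i * θ i < 1) →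
      ∀ κ : ℝ, κ < 1 - ∑ i, bound (θ i) (j i) →
      ∃ r₀ : ℕ, 1 ≤ r₀ ∧ ∀ r : ℕ, r₀ ≤ r → ∃ c : ℝ, 0 < c ∧ ∀ᶠ X : ℕ in atTop,
        c * X / Real.log X ^ 3 ≤ ((Rough r X).ncard : ℝ) ∧
        (∀ m ∈ Rough r X, ∀ i, (form i m).primeFactorsList.length ≤ r) ∧
        κ * ((Rough r X).ncard : ℝ) ≤
          ({m | m ∈ Rough r X ∧ ∀ i, HasLarge ((X : ℝ) ^ θ i) (form i m)}.ncard : ℝ)) ∧
    3 * bound (434 / 1000) 2 < 1 := by
  refine ⟨general, ?_⟩
  unfold bound
  rw [prod_range_succ, prod_range_succ, prod_range_zero]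
  norm_num

end Pool.Agent.Results.MP_fb5b0b_nt.LargePrimeFactors
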